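import Pool.Agent.J4H75.NC.Stm

set_option autoImplicit false

/-! Project NC, piece CYC (helper87): the cyclic base case. -/

namespace Pool.Agent.J4H87.NC

open Equiv Pool.Agent.J4H75.NC

theorem t_CYC : S_CYC := by
  intro G _ _ b
  classical
  set K := Subgroup.zpowers b with hK
  have hb : b ∈ K := Subgroup.mem_zpowers b
  have hmem : ∀ x, x ∈ K ↔ x * b ∈ K := fun x => (K.mul_mem_cancel_right hb).symm
  have hmem' : ∀ x, x ∈ K ↔ x * b⁻¹ ∈ K := fun x => (K.mul_mem_cancel_right (K.inv_mem hb)).symm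
  let c : Perm G :=
    { toFun := fun x => if x ∈ K then x * b else x
      invFun := fun x => if x ∈ K then x * b⁻¹ else x
      left_inv := by
        intro x
        by_cases h : x ∈ K
        · simp only [h, if_true, (hmem x).1 h, mul_inv_cancel_right]
        · simp only [h, if_false]
      right_inv := by
        intro x
        by_cases h : x ∈ K
        · simp only [h, if_true, (hmem' x).1 h, inv_mul_cancel_right]
        · simp only [h, if_false] }
  have hcK : ∀ x ∈ K, c x = x * b := fun x hx => if_pos hx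
  have hcn : ∀ x ∉ K, c x = x := fun x hx => if_neg hx
  have hpow : ∀ (k : ℕ) (x : G), x ∈ K → (c ^ k) x = x * b ^ k ∧ (c ^ k) x ∈ K := by
    intro k
    induction k with
    | zero => intro x hx; simpa using hx
    | succ k ih =>
      intro x hx
      obtain ⟨h1, h2⟩ := ih x hx
      have h3 : (c ^ (k + 1)) x = c ((c ^ k) x) := by
        rw [pow_succ']
        rfl
      rw [h3, hcK _ h2, h1, mul_assoc, ← pow_succ]
      refine ⟨rfl, ?_⟩
      exact K.mul_mem hx (K.pow_mem hb _)
  refine ⟨c, ⟨?_, ?_⟩, hcn, hcK⟩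
  · refine ⟨?_, c.injective.injOn, ?_⟩
    · intro x hx
      have hx : x ∈ K := hx
      show c x ∈ K
      rw [hcK x hx]
      exact (hmem x).1 hx
    · intro x hx
      have hx : x ∈ K := hx
      refine ⟨x * b⁻¹, (hmem' x).1 hx, ?_⟩
      rw [hcK _ ((hmem' x).1 hx), inv_mul_cancel_right]
  · intro x hx y hy
    have hx : x ∈ K := hx
    have hy : y ∈ K := hy
    have h1 : x⁻¹ * y ∈ K := K.mul_mem (K.inv_mem hx) hy
    obtain ⟨k, hk⟩ := (mem_powers_iff_mem_zpowers.2 h1 : x⁻¹ * y ∈ Submonoid.powers b)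
    refine ⟨(k : ℤ), ?_⟩
    rw [zpow_natCast, (hpow k x hx).1]
    have h2 : b ^ k = x⁻¹ * y := hk
    rw [h2, mul_inv_cancel_left]

end Pool.Agent.J4H87.NC
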