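import Pool.Agent.J4H75.NC.Stm

set_option autoImplicit false

/-! Project NC, piece LST (helper87): a permutation with one cycle gives the list. -/

namespace Pool.Agent.J4H87.NC

open Equiv Pool.Agent.J4H75.NC

theorem t_LST : S_LST := by
  intro G _ _ A f hf hA
  classical
  cases nonempty_fintype G
  have hf' : f.IsCycleOn ((Finset.univ : Finset G) : Set G) := by
    rw [Finset.coe_univ]
    exact hf
  have hc : (Finset.univ : Finset G).card = Nat.card G := by
    rw [Finset.card_univ, Nat.card_eq_fintype_card]
  set n := Nat.card G with hn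
  let F : ℕ → G := fun k => (f ^ k) 1
  have hF0 : F 0 = 1 := rfl
  have hFs : ∀ k, F (k + 1) = f (F k) := by
    intro k
    show (f ^ (k + 1)) 1 = f ((f ^ k) 1)
    rw [pow_succ']
    rfl
  let l : List G := (List.range n).map (fun k => (F k)⁻¹ * F (k + 1))
  have hl : l.length = n := by simp [l]
  have htake : ∀ k, k ≤ n → (l.take k).prod = F k := by
    intro k
    induction k with
    | zero => intro _; simp [hF0]
    | succ k ih =>
      intro hk
      rw [List.prod_take_succ _ _ (by omega), ih (by omega)]
      simp [l]
  have hper : F n = 1 := by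
    have h2 := hf'.pow_card_apply (Finset.mem_univ (1 : G))
    rw [hc] at h2
    exact h2
  refine ⟨l, hl, ?_, ?_, ?_⟩
  · intro a ha
    obtain ⟨k, -, rfl⟩ := List.mem_map.1 ha
    rw [hFs]
    exact hA _
  · have h1 := htake n le_rfl
    rw [← hl, List.take_length] at h1
    rw [h1, hl]
    exact hper
  · have h1 : (List.range n).map (fun k => (l.take (k + 1)).prod) = (List.range n).map (fun k => F (k + 1)) := by
      apply List.map_congr_left
      intro k hk
      exact htake (k + 1) (List.mem_range.1 hk)
    rw [h1]
    refine List.Nodup.map_on ?_ List.nodup_range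
    intro i hi j hj hij
    rw [List.mem_range] at hi hj
    have h2 := (hf'.pow_apply_eq_pow_apply (Finset.mem_univ (1 : G))).1 hij
    rw [hc] at h2
    have h3 : i ≡ j [MOD n] := Nat.ModEq.add_right_cancel' 1 h2
    exact Nat.ModEq.eq_of_lt_of_lt h3 hi hj

end Pool.Agent.J4H87.NC
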